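import Pool.Agent.Lib.MP_1a91b9_nuT3.Base
import Pool.Agent.Lib.MP_1a91b9_nuT.S4.LProd
import Pool.Agent.Lib.MP_1a91b9_nuT3.S8.Unr
import Pool.Agent.Lib.MP_1a91b9_nuT.S4.NormPsi

/-!
# EF, job TOWER: residue degrees and ramification in the towers `TowerK3`

Every step `F'/F` of the tower is Galois of degree `3`, so for a place `w'` of `F'` above `w` the
ramification index and the residue degree divide `3` (`ef_dvd`). Induction on `TowerK3`:
* `tower_res`: the residue degree over `K` is multiplicative in the tower.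
* `tower_ram`: the valuation of `1 + 3 ω` at the places above it is not a square; base: `K → F`
  bijective and the valuation of `1 + 3 ω` is `exp (-1)`; step: `v' (x) = v (x) ^ e` with `e = 1`
  or `3` (if `γ ^ 2 = x ^ 3` then `(γ / x) ^ 2 = x`).
-/

set_option autoImplicit false

namespace Pool.Agent.Lib.MP_1a91b9_nuT3.EF

variable [Pool.Agent.Lib.MP_1a91b9_nuT.CD]

open NumberField IsDedekindDomain Polynomial WithZero Pool.Agent.Lib.MP_1a91b9_nt
open Pool.Agent.Lib.MP_1a91b9_nuT Pool.Agent.Lib.MP_1a91b9_nuT3.S8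

universe u

/-- In a Galois extension the residue degree and the ramification index divide the degree. -/
theorem ef_dvd {F F' : Type*} [Field F] [NumberField F] [Field F'] [NumberField F'] [Algebra F F']
    [IsGalois F F'] (v : HeightOneSpectrum (𝓞 F)) (w : HeightOneSpectrum (𝓞 F'))
    (h : w.asIdeal.under (𝓞 F) = v.asIdeal) :
    w.asIdeal.inertiaDeg (𝓞 F) ∣ Module.finrank F F' ∧
      v.asIdeal.ramificationIdx' w.asIdeal ∣ Module.finrank F F' := by
  have hvp : v.asIdeal.IsPrime := v.isPrime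
  have hvm : v.asIdeal.IsMaximal := v.isMaximal
  have i1 : w.asIdeal.IsPrime := w.isPrime
  have i2 : w.asIdeal.LiesOver v.asIdeal := ⟨h.symm⟩
  have hfund := Ideal.ncard_primesOver_mul_ramificationIdxIn_mul_inertiaDegIn v.asIdeal (𝓞 F')
    Gal(F'/F)
  rw [IsGalois.card_aut_eq_finrank] at hfund
  have h1 : w.asIdeal.inertiaDeg (𝓞 F) = Ideal.inertiaDegIn v.asIdeal (𝓞 F') :=
    (Ideal.inertiaDegIn_eq_inertiaDeg v.asIdeal w.asIdeal Gal(F'/F)).symm
  have h2 : v.asIdeal.ramificationIdx' w.asIdeal = Ideal.ramificationIdxIn v.asIdeal (𝓞 F') := by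
    rw [Ideal.ramificationIdxIn_eq_ramificationIdx v.asIdeal w.asIdeal Gal(F'/F),
      ← Ideal.ramificationIdx'_eq_ramificationIdx v.asIdeal w.asIdeal v.ne_bot]
  rw [h1, h2, ← hfund]
  constructor
  · exact (Dvd.intro_left _ rfl).mul_left _
  · exact (Dvd.intro _ rfl).mul_left _


end Pool.Agent.Lib.MP_1a91b9_nuT3.EF
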